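import Pool.Agent.Q41.ZP.KFamP
import Pool.Agent.Results.MP_130685_nt.CornerCriterion

/-!
# MP_130685_nt: Zilber-Pink for ALL subvarieties of `Y(1)^n` given by integral equations with unit
corner coefficients, scaled by `c (t)`, for all but `O(H^(q - 1 + ε))` integral points `t`

`Y(1)^n` is identified with `ℂ^n` by the elliptic modular function `jj = j = E₄³ / Δ`. The definitions
`given`, `corner`, `DegreeBounds`, `IndependentExponents`, `NoAtypical` (and the special
subvarieties with more constants) are those of the starting file `CornerCriterion`.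

**Scalings.** Let `Λ ⊂ ℂ` be a finitely generated ring, `K ⊇ Λ` a countable subfield of `ℂ`, and let
`f_l ∈ ℤ[t_1, …, t_q]`, `0 ≤ l ≤ n (n - 1) / 2`, be polynomials irreducible over `ℤ` and over `K`, none
of which divides another. Let `h ∈ Λ[t_1, …, t_q]` be a polynomial not divisible by any `f_l` over
`K`. For an integral point `t` let `S_t` (`ringS`) be the integral closure of the ring `Λ[1 / h (t)]` in
the field of complex numbers. For `Λ = ℤ` and `h = 1` it is the ring of all algebraic integers.

**Subvarieties.** Let `V` be a subset of `Y(1)^n` of expected dimension `m` given by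
* equations `G_J (u_j, j ∈ J) = 0` over `S_t`, one for every set `J` of `m + 1` coordinates, such that
  the `2^(m + 1)` corner coefficients (those of the monomials `∏_{j ∈ I} u_j^(d_j)`, `I ⊆ J`, where
  `d_j` is the degree in `u_j`) are units of `S_t` (`UnitCorners`),
* functions `s_j` integral over `S_t[x_j]`, `R_j (s_j, x_j) = 0` with `R_j` monic of degree at most
  `T` whose nonzero coefficients are units of `S_t` (`UnitCoefficients`; `R_j = S - J`, `s_j = x_j`,
  `T = 1`: subvarieties of `Y(1)^n`; modular functions of higher level: images of subvarieties of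
  products of modular curves of any levels).
The set `V_c` is the set of all `x` such that for some `s_j` with `R_j (s_j, x_j) = 0` the equations
`G_J (c_j s_j, j ∈ J) = 0` hold, where `c_j = ∏_l f_l (t) ^ (e_{l j})` and the exponents `e_{l j}` are
positive and independent (level one: `e_{l i} e_{l j} e_{l' i} e_{l' j}` is not a square for `l ≠ l'`,
`i ≠ j`).

**Theorem.** For every `ε > 0` there is a constant `C` such that for all but `C H^(q - 1 + ε)` of the
integral points `t` with `max |t_i| ≤ H` the following is true for ALL such `V` (all `m`, all degrees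
`d_J`, all equations `G_J` and `R_j` over `S_t`, all `T`) and ALL independent exponents `e`: `V_c` has
no atypical intersection with special subvarieties `Z` of `Y(1)^n`. That is, every irreducible
closed subset of `V_c ∩ Z` has dimension at most `dim Z + m - n`, and the same bound holds for the
transcendence degrees of the points of `V_c ∩ Z`. The constant coordinates of `Z` can be special
points or arbitrary elements of `S_t`.

So one exceptional set of integral points is good for all subvarieties at once; it depends only on
the `f_l`, on `Λ` and on `h`. Multiplying the `u_j` by units of `S_t` changes the corner coefficients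
by units, so that arbitrary unit multipliers of the `c_j` are included. If `V_t` is a family of
subvarieties with equations over `Λ[t_1, …, t_q]` whose corner coefficients are divisible by no
`f_l`, let `h` be the product of the corner coefficients: then all `V_t` satisfy the conditions, so
that the theorem contains the case of multi-parameter families. The exponent `q - 1` is the best
possible: the hypersurfaces `f_l = 0` themselves can contain as many integral points.

The starting files treat one-parameter families of subvarieties (`CornerCriterion`,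
`IntegralParameters`), with exceptional sets depending on the family. The proof combines the local
criterion of `CornerCriterion`, applied over the ring `S_t`, with a count (`Q41.ZP`): for all but
`O(H^(q - 1 + ε))` integral points `t` there are prime ideals of `Λ` which contain `f_l (t)` and
neither the other `f_l' (t)` nor `h (t)`.
-/

namespace Pool.Agent.Results.MP_130685_nt.AllSubvarieties

open MvPolynomial
open Pool.Agent.Results.MP_130685_nt.CornerCriterion
  (given corner DegreeBounds IndependentExponents NoAtypical SpecialVariety)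

/-- The value of a polynomial at an integral point. -/
noncomputable def valueOf {Λ : Type} [CommRing Λ] {q : ℕ} (t : Fin q → ℤ)
    (h : MvPolynomial (Fin q) Λ) : Λ :=
  eval (fun i => (t i : Λ)) h

/-- The ring `Λ[1 / h (t)]`. -/
def localized {Λ : Type} [CommRing Λ] (ι : Λ →+* ℂ) {q : ℕ} (h : MvPolynomial (Fin q) Λ)
    (t : Fin q → ℤ) : Subring ℂ :=
  Subring.closure (insert (ι (valueOf t h))⁻¹ (Set.range ι))

/-- The ring `S_t`, the integral closure of `Λ[1 / h (t)]` in the field of complex numbers. -/
noncomputable def ringS {Λ : Type} [CommRing Λ] (ι : Λ →+* ℂ) {q : ℕ}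
    (h : MvPolynomial (Fin q) Λ) (t : Fin q → ℤ) : Subalgebra (localized ι h t) ℂ :=
  integralClosure (localized ι h t) ℂ

/-- The equations `G J` have the degrees `d J` and their `2^(m + 1)` corner coefficients are units. -/
def UnitCorners {S : Type} [CommRing S] {n : ℕ} (m : ℕ)
    (G : ∀ J : Finset (Fin n), MvPolynomial J S) (d : ∀ J : Finset (Fin n), J → ℕ) : Prop :=
  DegreeBounds m G d ∧ ∀ J : Finset (Fin n), J.card = m + 1 → ∀ I : Finset J,
    IsUnit ((G J).coeff (corner (d J) I))

/-- `R` is monic, has degree at most `T` in both variables, and its nonzero coefficients are units. -/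
def UnitCoefficients {S : Type} [CommRing S] (T : ℕ) (R : Polynomial (Polynomial S)) : Prop :=
  R.Monic ∧ ∀ u w, (R.coeff u).coeff w ≠ 0 → u ≤ T ∧ w ≤ T ∧ IsUnit ((R.coeff u).coeff w)

/-- All subsets of `Y(1)^n` which are given by equations over `S_t` with unit corner coefficients
and scaled by the values of the `∏ l, f l ^ e l i` have no atypical intersections. -/
def AllGood {Λ : Type} [CommRing Λ] (ι : Λ →+* ℂ) (K : Subfield ℂ) {q : ℕ} (n : ℕ)
    (f : Fin (n.choose 2 + 1) → MvPolynomial (Fin q) ℤ) (h : MvPolynomial (Fin q) Λ)
    (t : Fin q → ℤ) : Prop :=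
  ∀ (m T : ℕ) (R : Fin n → Polynomial (Polynomial (ringS ι h t)))
    (G : ∀ J : Finset (Fin n), MvPolynomial J (ringS ι h t))
    (d : ∀ J : Finset (Fin n), J → ℕ) (e : Fin (n.choose 2 + 1) → Fin n → ℕ),
    (∀ i, UnitCoefficients T (R i)) → UnitCorners m G d → IndependentExponents T e →
    NoAtypical (ringS ι h t).val.toRingHom K m (given (ringS ι h t).val.toRingHom m R G
      fun i => ((∏ l, eval t (f l) ^ e l i : ℤ) : ringS ι h t))

/-- Zilber-Pink with no atypical intersections at all for all subvarieties of `Y(1)^n` given by
integral equations with unit corner coefficients, scaled by the values of polynomials, for all but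
few integral points. -/
theorem result (Λ : Type) [CommRing Λ] [Algebra.FiniteType ℤ Λ] (ι : Λ →+* ℂ)
    (hι : Function.Injective ι) (K : Subfield ℂ) [Countable K] (hK : ∀ a, ι a ∈ K) (q n : ℕ)
    (f : Fin (n.choose 2 + 1) → MvPolynomial (Fin q) ℤ) (hf : ∀ l, Irreducible (f l))
    (hfK : ∀ l, Irreducible (map (Int.castRingHom K) (f l)))
    (hf2 : ∀ l l', l ≠ l' → ¬ f l ∣ f l') (h : MvPolynomial (Fin q) Λ)
    (hh : ∀ l, ¬ map (Int.castRingHom K) (f l) ∣ map (ι.codRestrict K hK) h)
    (ε : ℝ) (hε : 0 < ε) :
    ∃ C : ℝ, ∀ H : ℕ, 1 ≤ H →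
      (Set.ncard {t : Fin q → ℤ | (∀ j, |t j| ≤ (H : ℤ)) ∧ ¬ AllGood ι K n f h t} : ℝ) ≤
        C * (H : ℝ) ^ ((q : ℝ) - 1 + ε) := by
  classical
  obtain ⟨C, hC⟩ := Pool.Agent.Q41.ZP.exists_primes (ι.codRestrict K hK) f hf hfK hf2
    (fun _ : Unit => h) (fun l _ => hh l) hε
  refine ⟨C, fun H hH => le_trans ?_ (hC H hH)⟩
  rw [Nat.cast_le]
  refine Set.ncard_le_ncard ?_ ((Fintype.piFinset fun _ : Fin q =>
    Finset.Icc (-(H : ℤ)) H).finite_toSet.subset fun t ht => ?_)
  swap
  · exact Fintype.mem_piFinset.2 fun j => Finset.mem_Icc.2 (abs_le.1 (ht.1 j))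
  rintro t ⟨ht1, ht3⟩
  refine ⟨ht1, ?_⟩
  rintro ⟨hf0, hpl⟩
  apply ht3
  intro m T R G d e hR hG he
  have hcount : Countable (algebraicClosure K ℂ).toSubfield :=
    Pool.Agent.Q77.ZP.countable_algClosure K
  have key := CornerCriterion.result.1 (ringS ι h t) (ringS ι h t).val.toRingHom
    Subtype.val_injective (algebraicClosure K ℂ).toSubfield
    (fun a => Pool.Agent.Q77.ZP.int_mem ι (valueOf t h) K hK a.2) n m T R (fun i => (hR i).1)
    (fun i u w h0 => ⟨((hR i).2 u w h0).1, ((hR i).2 u w h0).2.1⟩) G d hG.1
    (fun i => ((∏ l, eval t (f l) ^ e l i : ℤ) : ringS ι h t)) e he fun l => by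
      obtain ⟨𝔭, h𝔭, hf𝔭, hf𝔭', hh𝔭⟩ := hpl l
      obtain ⟨F, hF, -, red, hred⟩ := Pool.Agent.Q77.ZP.place ι hι (valueOf t h) 𝔭 (hh𝔭 ())
      let red' : ringS ι h t →+* F := red
      have hint : ∀ a : ℤ, red' (a : ringS ι h t) = 0 ↔ (a : Λ) ∈ 𝔭 := by
        intro a
        rw [← hred, map_intCast, map_intCast, map_intCast]
      refine ⟨{
        F := F
        red := red'
        corners := fun J hJ I => ((hG.2 J hJ I).map red').ne_zero
        coeff_ne := fun i u w h0 => (((hR i).2 u w h0).2.2.map red').ne_zero
        ϖ := ((eval t (f l) : ℤ) : ringS ι h t)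
        red_ϖ := (hint _).2 hf𝔭
        order := fun i => ?_ }⟩
      refine ⟨1, ((∏ l' ∈ Finset.univ.erase l, eval t (f l') ^ e l' i : ℤ) : ringS ι h t),
        ?_, ?_, ?_⟩
      · rw [map_one]
        exact one_ne_zero
      · rw [Ne, hint, Int.cast_prod]
        intro h0
        obtain ⟨l', hl', h2⟩ := (Ideal.IsPrime.prod_mem_iff (hp := h𝔭)).1 h0
        rw [Int.cast_pow] at h2
        exact hf𝔭' l' (Finset.ne_of_mem_erase hl') (h𝔭.mem_of_pow_mem _ h2)
      · rw [one_mul, ← Int.cast_pow, ← Int.cast_mul]
        congr 1
        exact (Finset.prod_erase_mul Finset.univ (fun l' => eval t (f l') ^ e l' i)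
          (Finset.mem_univ l)).symm
  intro r Z
  obtain ⟨k1, k2⟩ := key r Z
  refine ⟨k1, fun x hx S hS => k2 x hx S ?_⟩
  exact hS.extendScalars (algebraicClosure K ℂ)

end Pool.Agent.Results.MP_130685_nt.AllSubvarieties
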