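import Pool.Agent.Q57.ZP.Unit
import Pool.Agent.Q77.ZP.Twist
import Pool.Agent.Results.MP_130685_nt.CornerCriterion

/-!
# MP_130685_nt: Zilber-Pink for ALL subvarieties of `Y(1)^n` given by integral equations with unit
corner coefficients, scaled by `c (t)`, for all but finitely many elements `t` of a finitely generated
field

`Y(1)^n` is identified with `ℂ^n` by the elliptic modular function `jj = j = E₄³ / Δ`. The definitions
`valueAt`, `corner`, `DegreeBounds`, `NoAtypical` (and the special subvarieties with more
constants) are those of the starting file `CornerCriterion`.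

**Rings.** Let `F` be a finite set of complex numbers, `P ⊆ F`, and let `K` be a countable field that
contains `F`. For `t ∈ ℂ` let `R_t` (`ringR`) be the ring generated by `F`, `t` and the numbers
`1 / (t - b)`, `b ∈ P`, and let `S_t` (`ringS`) be the integral closure of `R_t` in the field of complex
numbers; it contains the ring of all algebraic integers.

**Scalings.** Let `D_1, …, D_M ⊆ F` be disjoint from `P`. We consider the scalings
`c_j (t) = ∏_α (t - α) ^ (e_j (α))`, the product over all the elements `α` of the union of the sets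
`D_l`, where the exponents are positive and independent: `q e_i (α) e_j (α) e_i (β) e_j (β)` is not a
square for `α ∈ D_l`, `β ∈ D_{l'}`, `l ≠ l'`, `i ≠ j`, `1 ≤ q ≤ T^8` (`Independent`).

**Subvarieties.** Let `V` be a subset of `Y(1)^n` of expected dimension `m` given by
* equations `G_J (u_j, j ∈ J) = 0` over `S_t`, one for every set `J` of `m + 1` coordinates, such that
  the `2^(m + 1)` corner coefficients (those of the monomials `∏_{j ∈ I} u_j^(d_j)`, `I ⊆ J`, where
  `d_j` is the degree in `u_j`) are units of `S_t` (`UnitCorners`),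
* functions `s_j` integral over `S_t[x_j]`, `R_j (s_j, x_j) = 0` with `R_j` monic of degree at most
  `T` whose nonzero coefficients are units of `S_t` (`UnitCoefficients`; `R_j = S - J`, `s_j = x_j`,
  `T = 1`: subvarieties of `Y(1)^n`; modular functions of higher level: images of subvarieties of
  products of modular curves of any levels).
The set `V_t` (`scaled`) is the set of all `x` such that for some `s_j` with `R_j (s_j, x_j) = 0` the
equations `G_J (c_j (t) s_j, j ∈ J) = 0` hold.

**Theorem.**
1. If the union of any `M - n (n - 1) / 2` or more of the sets `D_l` has at least three elements, then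
   for all but finitely many `t` in the field generated by `F`, and
2. if the union of any `M - n (n - 1) / 2` or more of the sets `D_l` has at least two elements, then
   for all but finitely many `t` in the ring generated by `F`,

the following is true for ALL such `V` (all `m`, all degrees `d_J`, all equations `G_J` and `R_j` over
`S_t`, all `T`) and ALL independent exponents `e`: `V_t` has no atypical intersection with special
subvarieties `Z` of `Y(1)^n`. That is, every irreducible closed subset of `V_t ∩ Z` has dimension at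
most `dim Z + m - n`, and the same bound holds for the transcendence degrees over `K` of the points of
`V_t ∩ Z`. The constant coordinates of `Z` can be special points or arbitrary elements of `S_t`.

Example: `D_l = {α_l}`, `1 ≤ l ≤ n (n - 1) / 2 + 3`; level one; `K` a number field: for all but finitely
many `t ∈ K` and all subvarieties `V` of `Y(1)^n` given by equations over the ring generated by `t` and
by all algebraic integers, with unit corner coefficients, the translate of `V` by the vector
`∏_l (t - α_l) ^ (e_l)` of multiplicative scalings has no atypical subvarieties.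

The finite exceptional set depends only on `F`, `P` and the sets `D_l`. In all earlier results the
exceptional set belongs to one family of subvarieties (`TwistedFamilies` of `MP_22337f_ag`,
`GroupParameters` of `MP_130685_nt`: one family and all unit multipliers of the scalings; unit
multipliers are included here, because they change the corner coefficients by units). The result
`AllSubvarieties` of this problem has any number of parameters but an infinite exceptional set. The
proof combines the local criterion of the starting file `CornerCriterion`, applied over the ring `S_t`,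
with the finiteness of the number of solutions of unit equations in finitely generated rings
(`Pool.Agent.Q57.ZP.Unit`): for all but finitely many `t` there are `n (n - 1) / 2 + 1` different
sets `D_l` with an element `α` to which `t` is near at some place of the ring generated by `t` and a
finite set which contains `F` and the numbers `1 / (a - b)`, `a, b ∈ F`.
-/

set_option autoImplicit false

namespace Pool.Agent.Results.MP_130685_nt.AllSubvarietiesFinite

open MvPolynomial
open Pool.Agent.Results.MP_130685_nt.CornerCriterion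
  (given valueAt corner DegreeBounds IndependentExponents NoAtypical SpecialVariety)

/-- The ring `R_t` generated by `F`, `t` and the `1 / (t - b)`, `b ∈ P`. -/
def ringR (F P : Finset ℂ) (t : ℂ) : Subring ℂ :=
  Subring.closure (insert t ((F : Set ℂ) ∪ (fun b => (t - b)⁻¹) '' (P : Set ℂ)))

/-- The ring `S_t`, the integral closure of `R_t` in the field of complex numbers. -/
noncomputable def ringS (F P : Finset ℂ) (t : ℂ) : Subalgebra (ringR F P t) ℂ :=
  integralClosure (ringR F P t) ℂ

/-- The equations `G J` have the degrees `d J` and their `2^(m + 1)` corner coefficients are units. -/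
def UnitCorners {S : Type} [CommRing S] {n : ℕ} (m : ℕ)
    (G : ∀ J : Finset (Fin n), MvPolynomial J S) (d : ∀ J : Finset (Fin n), J → ℕ) : Prop :=
  DegreeBounds m G d ∧ ∀ J : Finset (Fin n), J.card = m + 1 → ∀ I : Finset J,
    IsUnit ((G J).coeff (corner (d J) I))

/-- `R` is monic, has degree at most `T` in both variables, and its nonzero coefficients are units. -/
def UnitCoefficients {S : Type} [CommRing S] (T : ℕ) (R : Polynomial (Polynomial S)) : Prop :=
  R.Monic ∧ ∀ u w, (R.coeff u).coeff w ≠ 0 → u ≤ T ∧ w ≤ T ∧ IsUnit ((R.coeff u).coeff w)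

/-- The exponents at the elements of the sets `D l` are positive and independent. -/
def Independent {n M : ℕ} (T : ℕ) (D : Fin M → Finset ℂ) (e : ℂ → Fin n → ℕ) : Prop :=
  (∀ l, ∀ α ∈ D l, ∀ i, 0 < e α i) ∧ ∀ l l', l ≠ l' → ∀ α ∈ D l, ∀ β ∈ D l', ∀ i j, i ≠ j →
    ∀ q, 0 < q → q ≤ T ^ 8 → ¬ IsSquare (q * (e α i * e α j * (e β i * e β j)))

/-- The subset of `Y(1)^n` given by the equations `R i`, `G J`, scaled by `c`. -/
def scaled {S : Type} [CommRing S] (ι : S →+* ℂ) {n : ℕ} (m : ℕ)
    (R : Fin n → Polynomial (Polynomial S)) (G : ∀ J : Finset (Fin n), MvPolynomial J S)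
    (c : Fin n → ℂ) : Set (Fin n → ℂ) :=
  {x | ∃ s : Fin n → ℂ, (∀ i, valueAt ι (R i) (s i) (x i) = 0) ∧
    ∀ J : Finset (Fin n), J.card = m + 1 → eval₂ ι (fun j : J => c j * s j) (G J) = 0}

/-- All subsets of `Y(1)^n` which are given by equations over `S_t` with unit corner coefficients
and scaled by the `∏ α, (t - α) ^ e α i` have no atypical intersections. -/
def AllGood (K : Subfield ℂ) (n : ℕ) {M : ℕ} (F P : Finset ℂ) (D : Fin M → Finset ℂ) (t : ℂ) :
    Prop :=
  ∀ (m T : ℕ) (R : Fin n → Polynomial (Polynomial (ringS F P t)))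
    (G : ∀ J : Finset (Fin n), MvPolynomial J (ringS F P t))
    (d : ∀ J : Finset (Fin n), J → ℕ) (e : ℂ → Fin n → ℕ),
    (∀ i, UnitCoefficients T (R i)) → UnitCorners m G d → Independent T D e →
    NoAtypical (ringS F P t).val.toRingHom K m (scaled (ringS F P t).val.toRingHom m R G
      fun i => ∏ α ∈ Finset.univ.biUnion D, (t - α) ^ e α i)

theorem val_one (V : ValuationSubring ℂ) {t a b : ℂ} (h1 : V.valuation (t - a) < 1)
    (hab : a ≠ b) (h2 : a - b ∈ V) (h3 : (a - b)⁻¹ ∈ V) : V.valuation (t - b) = 1 := by
  have h4 : V.valuation (a - b) = 1 := by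
    have e2 := (ValuationSubring.valuation_le_one_iff _ _).2 h2
    have e3 := (ValuationSubring.valuation_le_one_iff _ _).2 h3
    rw [map_inv₀] at e3
    have h4 : V.valuation (a - b) ≠ 0 := (Valuation.ne_zero_iff _).2 (sub_ne_zero.2 hab)
    exact le_antisymm e2 ((inv_le_one₀ (zero_lt_iff.2 h4)).1 e3)
  have h6 : t - b = (t - a) + (a - b) := by ring
  rw [h6, Valuation.map_add_eq_of_lt_right _ (by rw [h4]; exact h1), h4]

/-- The places are good for all subvarieties. -/
theorem good (K : Subfield ℂ) [Countable K] (n : ℕ) {M : ℕ} (F P : Finset ℂ)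
    (hF : ∀ z ∈ F, z ∈ K) (hPF : P ⊆ F) (D : Fin M → Finset ℂ) (hD : ∀ l, D l ⊆ F)
    (hDP : ∀ l, Disjoint (D l) P) (W : Finset ℂ) (hFW : F ⊆ W)
    (hW : ∀ a ∈ F, ∀ b ∈ F, (a - b)⁻¹ ∈ W) (t : ℂ) (htK : t ∈ K)
    (f : Fin (n.choose 2 + 1) → Fin M) (hf : Function.Injective f)
    (h : ∀ l, ∃ a ∈ D (f l), ¬ Pool.Agent.Y910.Z.Bad (W : Set ℂ) t a) :
    AllGood K n F P D t := by
  classical
  intro m T R G d e hR hG he
  choose a ha hbad using h
  have haF : ∀ l, a l ∈ F := fun l => hD _ (ha l)
  have hplace : ∀ l, ∃ V : ValuationSubring ℂ, V.valuation (t - a l) < 1 ∧ ∀ z ∈ W, z ∈ V := by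
    intro l
    obtain ⟨V, h1, h2, -⟩ := Pool.Agent.Y910.Z.exists_place (k := ℂ) (W : Set ℂ) (t := t)
      (a := a l) (hFW (haF l)) (hbad l) (Empty.elim : Empty → ℂ)
      (algebraicIndependent_empty_type_iff.2 (algebraMap ℂ ℂ).injective)
    exact ⟨V, h1, h2⟩
  have hRK : ringR F P t ≤ K.toSubring := by
    refine Subring.closure_le.2 fun z hz => ?_
    rcases hz with rfl | hz | ⟨b, hb, rfl⟩
    · exact htK
    · exact hF z hz
    · exact K.inv_mem (K.sub_mem htK (hF b (hPF hb)))
  have hSK : ∀ z : ringS F P t, (z : ℂ) ∈ algebraicClosure K ℂ := by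
    intro z
    let i : ringR F P t →+* K := (ringR F P t).subtype.codRestrict K fun x => hRK x.2
    refine mem_algebraicClosure_iff'.2 ?_
    obtain ⟨p, hp, h2⟩ := z.2
    refine ⟨p.map i, hp.map i, ?_⟩
    rw [Polynomial.eval₂_map]
    exact h2
  have hmemR : ∀ {z : ℂ}, z ∈ ringR F P t → z ∈ ringS F P t := fun {z} hz =>
    isIntegral_algebraMap (R := ringR F P t) (A := ℂ) (x := ⟨z, hz⟩)
  have htR : t ∈ ringR F P t := Subring.subset_closure (Set.mem_insert _ _)
  have hFR : ∀ z ∈ F, z ∈ ringR F P t := fun z hz =>
    Subring.subset_closure (Set.mem_insert_of_mem _ (Or.inl hz))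
  let U : Finset ℂ := Finset.univ.biUnion D
  have hUF : ∀ α ∈ U, α ∈ F := by
    intro α hα
    obtain ⟨l, -, hl⟩ := Finset.mem_biUnion.1 hα
    exact hD l hl
  have htα : ∀ α ∈ F, t - α ∈ ringS F P t := fun α hα => hmemR (sub_mem htR (hFR α hα))
  let δ : ℂ → ringS F P t := fun α => if hα : α ∈ F then ⟨t - α, htα α hα⟩ else 1
  have hδ : ∀ α ∈ F, (δ α : ℂ) = t - α := by
    intro α hα
    simp only [δ, dif_pos hα]
  have hcount : Countable (algebraicClosure K ℂ).toSubfield :=
    Pool.Agent.Q77.ZP.countable_algClosure K
  have key := CornerCriterion.result.1 (ringS F P t) (ringS F P t).val.toRingHom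
    Subtype.val_injective (algebraicClosure K ℂ).toSubfield
    (fun z => hSK z) n m T R (fun i => (hR i).1)
    (fun i u w h0 => ⟨((hR i).2 u w h0).1, ((hR i).2 u w h0).2.1⟩) G d hG.1
    (fun i => ∏ α ∈ U, δ α ^ e α i) (fun l i => e (a l) i)
    ⟨fun l i => he.1 _ _ (ha l) i, fun l l' hl i j hij q hq hqT =>
      he.2 (f l) (f l') (fun h => hl (hf h)) _ (ha l) _ (ha l') i j hij q hq hqT⟩ fun l => by
      obtain ⟨V, hV1, hV2⟩ := hplace l
      have hFV : ∀ z ∈ F, z ∈ V := fun z hz => hV2 z (hFW hz)
      have htV : t ∈ V := by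
        have h1 : t - a l ∈ V := (ValuationSubring.valuation_le_one_iff _ _).1 hV1.le
        have h2 := V.add_mem _ _ h1 (hFV _ (haF l))
        rwa [sub_add_cancel] at h2
      have hval : ∀ b ∈ F, b ≠ a l → V.valuation (t - b) = 1 := by
        intro b hb hne
        exact val_one V hV1 hne.symm (sub_mem (hFV _ (haF l)) (hFV _ hb))
          (hV2 _ (hW _ (haF l) _ hb))
      have hRV : ∀ z ∈ ringR F P t, z ∈ V := by
        have h1 : ringR F P t ≤ V.toSubring := by
          refine Subring.closure_le.2 fun z hz => ?_
          rcases hz with rfl | hz | ⟨b, hb, rfl⟩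
          · exact htV
          · exact hFV z hz
          · refine (ValuationSubring.valuation_le_one_iff _ _).1 ?_
            have hne : b ≠ a l := by
              rintro rfl
              exact Finset.disjoint_left.1 (hDP _) (ha l) hb
            rw [map_inv₀, hval b (hPF hb) hne, inv_one]
        exact fun z hz => h1 hz
      let r : ringS F P t →+* V :=
        (ringS F P t).val.toRingHom.codRestrict V fun x =>
          Pool.Agent.Q77.ZP.mem_V_of_int V _ hRV x.2
      let red : ringS F P t →+* IsLocalRing.ResidueField V := (IsLocalRing.residue V).comp r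
      have hred : ∀ z : ringS F P t, red z = 0 ↔ V.valuation (z : ℂ) < 1 := by
        intro z
        show IsLocalRing.residue V (r z) = 0 ↔ _
        rw [IsLocalRing.residue_eq_zero_iff, ValuationSubring.valuation_lt_one_iff]
        rfl
      refine ⟨{
        F := IsLocalRing.ResidueField V
        red := red
        corners := fun J hJ I => ((hG.2 J hJ I).map red).ne_zero
        coeff_ne := fun i u w h0 => (((hR i).2 u w h0).2.2.map red).ne_zero
        ϖ := δ (a l)
        red_ϖ := (hred _).2 (by rw [hδ _ (haF l)]; exact hV1)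
        order := fun i => ?_ }⟩
      refine ⟨1, ∏ α ∈ U.erase (a l), δ α ^ e α i, ?_, ?_, ?_⟩
      · rw [map_one]
        exact one_ne_zero
      · rw [map_prod, Finset.prod_ne_zero_iff]
        intro α hα
        rw [map_pow]
        refine pow_ne_zero _ ?_
        rw [Ne, hred, hδ _ (hUF _ (Finset.mem_of_mem_erase hα)),
          hval _ (hUF _ (Finset.mem_of_mem_erase hα)) (Finset.ne_of_mem_erase hα)]
        exact lt_irrefl _
      · rw [one_mul]
        exact (Finset.prod_erase_mul U (fun α => δ α ^ e α i)
          (Finset.mem_biUnion.2 ⟨f l, Finset.mem_univ _, ha l⟩)).symm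
  have heq : scaled (ringS F P t).val.toRingHom m R G
      (fun i => ∏ α ∈ Finset.univ.biUnion D, (t - α) ^ e α i) =
      given (ringS F P t).val.toRingHom m R G (fun i => ∏ α ∈ U, δ α ^ e α i) := by
    unfold scaled given
    have h1 : ∀ i, (ringS F P t).val.toRingHom (∏ α ∈ U, δ α ^ e α i) =
        ∏ α ∈ Finset.univ.biUnion D, (t - α) ^ e α i := by
      intro i
      rw [map_prod]
      refine Finset.prod_congr rfl fun α hα => ?_
      rw [map_pow]
      congr 1
      exact hδ α (hUF α hα)
    simp only [h1]
  rw [heq]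
  intro r Z
  obtain ⟨k1, k2⟩ := key r Z
  refine ⟨k1, fun x hx S hS => k2 x hx S ?_⟩
  exact hS.extendScalars (algebraicClosure K ℂ)

/-- Zilber-Pink with no atypical intersections at all for all subvarieties of `Y(1)^n` given by
integral equations with unit corner coefficients, scaled by the values of polynomials, for all but
finitely many elements of finitely generated fields and rings. -/
theorem result (K : Subfield ℂ) [Countable K] (n : ℕ) {M : ℕ} (F P : Finset ℂ)
    (hF : ∀ z ∈ F, z ∈ K) (hPF : P ⊆ F) (D : Fin M → Finset ℂ) (hD : ∀ l, D l ⊆ F)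
    (hDP : ∀ l, Disjoint (D l) P) :
    ((∀ I : Finset (Fin M), M < I.card + (n.choose 2 + 1) → 3 ≤ (I.biUnion D).card) →
      {t : ℂ | t ∈ Subfield.closure (F : Set ℂ) ∧ ¬ AllGood K n F P D t}.Finite) ∧
    ((∀ I : Finset (Fin M), M < I.card + (n.choose 2 + 1) → 2 ≤ (I.biUnion D).card) →
      {t : ℂ | t ∈ Subring.closure (F : Set ℂ) ∧ ¬ AllGood K n F P D t}.Finite) := by
  classical
  let W : Finset ℂ := F ∪ (F ×ˢ F).image fun x => (x.1 - x.2)⁻¹
  have hFW : F ⊆ W := Finset.subset_union_left
  have hW : ∀ a ∈ F, ∀ b ∈ F, (a - b)⁻¹ ∈ W := fun a ha b hb =>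
    Finset.mem_union_right _ (Finset.mem_image.2 ⟨(a, b), Finset.mem_product.2 ⟨ha, hb⟩, rfl⟩)
  have hclK : Subfield.closure (F : Set ℂ) ≤ K := Subfield.closure_le.2 hF
  have hrf : Subring.closure (F : Set ℂ) ≤ (Subfield.closure (F : Set ℂ)).toSubring :=
    Subring.closure_le.2 Subfield.subset_closure
  refine ⟨fun h3 => ?_, fun h2 => ?_⟩
  · refine (Pool.Agent.Q57.ZP.finite_of_bad (n.choose 2 + 1) W D
      (fun t => t ∈ Subfield.closure (F : Set ℂ))
      (fun I hI => Pool.Agent.Q57.ZP.fin_bad_field W F D I (h3 I hI))
      {t : ℂ | t ∈ Subfield.closure (F : Set ℂ) ∧ ¬ AllGood K n F P D t} ∅ Set.finite_empty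
      ?_).subset fun t ht => ⟨ht.1, ht⟩
    rintro t - ⟨f, hf, h⟩ ⟨ht, hbad⟩
    exact hbad (good K n F P hF hPF D hD hDP W hFW hW t (hclK ht) f hf h)
  · refine (Pool.Agent.Q57.ZP.finite_of_bad (n.choose 2 + 1) W D
      (fun t => t ∈ Subring.closure (F : Set ℂ))
      (fun I hI => Pool.Agent.Q57.ZP.fin_bad_ring W F D I (h2 I hI))
      {t : ℂ | t ∈ Subring.closure (F : Set ℂ) ∧ ¬ AllGood K n F P D t} ∅ Set.finite_empty
      ?_).subset fun t ht => ⟨ht.1, ht⟩
    rintro t - ⟨f, hf, h⟩ ⟨ht, hbad⟩
    exact hbad (good K n F P hF hPF D hD hDP W hFW hW t (hclK (hrf ht)) f hf h)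

end Pool.Agent.Results.MP_130685_nt.AllSubvarietiesFinite
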