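import Pool.Agent.Q57.ZP.Mod

/-!
# MP_130685_nt: Zilber-Pink in products of modular curves for families whose parameter and whose
scalings are in finitely generated multiplicative groups

The Shimura variety `Y(1)^n` is identified with `ℂ^n` by the elliptic modular function
`jj = j = E₄³ / Δ`.

**Families.** Let `K ⊂ ℂ` be a countable field. We consider subsets `X_{t,w}` (`member`) of `Y(1)^n`
with `n + 1` parameters `t, w_1, …, w_n`, given by
* a family `B_t ⊆ P^N` of projective algebraic sets, defined by forms `G k` with coefficients in
  `K[t]`,
* quotients `f_i = A_i / B_i` of forms of the same degree `δ_i` with coefficients in `K[t]`,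
* functions `s_i` integral over `K[j]`, `R_i (s_i, j) = 0` with `R_i` monic in the first variable
  (level one: `R_i = S - J`, `s_i = j`; in general modular functions of any level without poles
  in the upper half plane), and nonzero polynomials `c_i ∈ K[t]`:
`X_{t,w} = {x | ∃ y ∈ B_t, ∃ s, ∀ i, R_i (s_i, x_i) = 0, w_i c_i (t) s_i = A_i (y) / B_i (y)}`.

**Parameters.** Let `F` be a finite set of complex numbers algebraic over `K`. The parameter `t` is a
unit of the ring generated by `F`; for example `t` may be any element of a given finitely generated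
subgroup of the multiplicative group (take for `F` its generators and their inverses). The `w_i` are
arbitrary units of the ring `R_t` generated by `F` and the numbers `1 / (t - b)`, `b ∈ P`, where `P` is
a finite set of numbers algebraic over `K`; for example arbitrary elements of the same finitely
generated group.

**Degenerate members.** Let `D_1, …, D_M` be finite sets of complex numbers algebraic over `K`, disjoint
from `P`, such that for all `α` in `D_l`
* no point of `B_α` lies on `m + 1` of the divisors of the `f_i` (at `t = α`), and
* the `c_i` have zeros at `α`, of orders `e_i (α) > 0`, and these orders are independent: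
  `q e_i (α) e_j (α) e_i (α') e_j (α')` is not a square for `α` in `D_l` and `α'` in `D_l'`,
  `l ≠ l'`, `i ≠ j`, `1 ≤ q ≤ T^8`, where `T` bounds the degrees of the `R_i` (`T = 1` for level
  one).

**Theorem.** If the union of any `M - n (n - 1) / 2` or more of the sets `D_l` contains a nonzero
number, for instance if there are `n (n - 1) / 2 + 1` degenerate members with nonzero parameters
`α_l`, then for all but finitely many units `t` and for ALL `w` in `(R_t^×)^n` the set `X_{t,w}` has no
atypical intersection with special subvarieties `Z` of `Y(1)^n`: every irreducible closed subset of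
`X_{t,w} ∩ Z` has dimension at most `dim Z + m - n`, and the same bound holds for the transcendence
degrees of the points of `X_{t,w} ∩ Z` over `K`. The constant coordinates of `Z` can be special points
or integral over the ring generated by any given finite set `Γ` of numbers algebraic over `K`.

The finite exceptional set of the `t` does not depend on `w`. The number `n (n - 1) / 2 + 1` is that of
the local criterion, as in the result `FamiliesOverEllipticCurves` for the points of an elliptic curve
over a number field. For all elements `t` of a finitely generated ring or field one or two more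
degenerate members are necessary (`MP_22337f_ag.FinitelyGeneratedFields`; there can be infinitely many
`t` which are near to neither of two given points), and the result `IntegralParameters` of this problem
has few, not finitely many, exceptions.

The proof combines the local criterion of the starting files with the finiteness of the number of
solutions of the unit equation in finitely generated rings: if `t` is near to no element of `D_l` then
`t` and `t - α` are units of a fixed finitely generated ring.
-/

set_option autoImplicit false

namespace Pool.Agent.Results.MP_130685_nt.GroupParameters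

open MvPolynomial
open Pool.Agent.Results.MP_22337f_ag.FinitelyGeneratedFields (NoAtypical InGeneralPosition
  IndependentOrders evalAt OnB valueAt)

/-- The member `X_{t,w}` of the family of subsets of `Y(1)^n`: the points `x` over which there are
values `s_i` of the functions on the factors of the product of modular curves, with
`w_i c_i (t) s_i = A_i (y) / B_i (y)` for a point `y` of `B_t`. -/
def member {K : Subfield ℂ} (t : ℂ) {N n : ℕ} {κ : Type}
    (G : κ → MvPolynomial (Fin (N + 1)) (Polynomial K))
    (A B : Fin n → MvPolynomial (Fin (N + 1)) (Polynomial K))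
    (R : Fin n → Polynomial (Polynomial K)) (c : Fin n → Polynomial K) (w : Fin n → ℂ) :
    Set (Fin n → ℂ) :=
  {x | ∃ y, OnB t G y ∧ ∃ s : Fin n → ℂ, ∀ i, valueAt (R i) (s i) (x i) = 0 ∧
    w i * evalAt K t (c i) * eval₂ (evalAt K t) y (B i) * s i = eval₂ (evalAt K t) y (A i)}

/-- `z` is a unit of the ring generated by `S`. -/
def IsUnitOf (S : Set ℂ) (z : ℂ) : Prop :=
  z ≠ 0 ∧ z ∈ Subring.closure S ∧ z⁻¹ ∈ Subring.closure S

/-- The generators `F`, `t` and `1 / (t - b)`, `b ∈ P`, of the ring `R_t`. -/
def generators (F P : Finset ℂ) (t : ℂ) : Set ℂ :=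
  insert t ((F : Set ℂ) ∪ (fun b => (t - b)⁻¹) '' (P : Set ℂ))

/-- Families with parameter and scalings in finitely generated multiplicative groups, which
degenerate at sufficiently many nonzero algebraic values of the parameter: only for finitely many `t`
there is a vector of scalings for which the member has an atypical intersection with special
subvarieties. -/
theorem result (K : Subfield ℂ) [Countable K] (κ : Type) [Finite κ] (N n m M T : ℕ)
    (G : κ → MvPolynomial (Fin (N + 1)) (Polynomial K)) (hG : ∀ k, ∃ e, (G k).IsHomogeneous e)
    (A B : Fin n → MvPolynomial (Fin (N + 1)) (Polynomial K)) (δ : Fin n → ℕ)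
    (hA : ∀ i, (A i).IsHomogeneous (δ i)) (hB : ∀ i, (B i).IsHomogeneous (δ i))
    (R : Fin n → Polynomial (Polynomial K)) (hR : ∀ i, (R i).Monic)
    (hT : ∀ i u w, ((R i).coeff u).coeff w ≠ 0 → u ≤ T ∧ w ≤ T)
    (c : Fin n → Polynomial K) (hc : ∀ i, c i ≠ 0)
    (D : Fin M → Finset ℂ) (hD : ∀ l, ∀ α ∈ D l, IsAlgebraic K α)
    (hind : IndependentOrders T c D) (hpos : ∀ l, ∀ α ∈ D l, InGeneralPosition α m G A B)
    (Γ : Finset ℂ) (hΓ : ∀ γ ∈ Γ, IsAlgebraic K γ) (F : Finset ℂ)
    (hF : ∀ z ∈ F, IsAlgebraic K z) (P : Finset ℂ) (hP : ∀ z ∈ P, IsAlgebraic K z)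
    (hPD : ∀ l, ∀ α ∈ D l, α ∉ P)
    (hM : ∀ I : Finset (Fin M), M ≤ I.card + n.choose 2 → ∃ α ∈ I.biUnion D, α ≠ 0) :
    {t : ℂ | IsUnitOf (F : Set ℂ) t ∧ ∃ w : Fin n → ℂ, (∀ i, IsUnitOf (generators F P t) (w i)) ∧
      ¬ NoAtypical (algebraMap (Algebra.adjoin ℤ (Γ : Set ℂ)) ℂ) K m
        (member t G A B R c w)}.Finite := by
  obtain ⟨W, hFW, hcrit⟩ := Pool.Agent.Q57.ZP.mod_crit K κ N n m M T G hG A B δ hA hB R hR hT c hc
    D hD hind hpos Γ hΓ F hF P hP hPD
  have hE : ∀ t, t ∉ {t : ℂ | ¬ IsAlgebraic K t} → (∃ f : Fin (n.choose 2 + 1) → Fin M,
      Function.Injective f ∧ ∀ l, ∃ a ∈ D (f l), ¬ Pool.Agent.Y910.Z.Bad (W : Set ℂ) t a) →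
      t ∉ {t | ∃ w : Fin n → ℂ, (∀ i, IsUnitOf (generators F P t) (w i)) ∧
        ¬ NoAtypical (algebraMap (Algebra.adjoin ℤ (Γ : Set ℂ)) ℂ) K m
          (member t G A B R c w)} := by
    rintro t ht hf ⟨w, hw, hno⟩
    refine hno ((hcrit t (not_not.1 ht) w fun i => ?_).1 hf)
    exact Pool.Agent.Q57.ZP.UnitOf.mono (Pool.Agent.Q57.ZP.gens_mono hFW t) (hw i)
  exact Pool.Agent.Q57.ZP.finite_of_bad' (n.choose 2 + 1) W D _
    (fun I hI => Pool.Agent.Q57.ZP.fin_bad_unit W F hFW D I (hM I (by omega))) _ _
    (Pool.Agent.Q57.ZP.alg_unit hF) hE

end Pool.Agent.Results.MP_130685_nt.GroupParameters
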